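import Pool.Agent.W823.QT.Stm

/-! Project QT (helper823, MP_26aa9e_pr): number of killing traps via consecutive hits. -/

set_option autoImplicit false

namespace Pool.Agent.W15.QTC1

open MeasureTheory ProbabilityTheory Filter Topology Pool.Agent.W845.Traps Pool.Agent.W823.QT
open scoped ENNReal NNReal

theorem Ioo_succ' (s n : ℕ) (h : s < n) : Finset.Ioo s (n + 1) = insert n (Finset.Ioo s n) := by
  ext i
  simp only [Finset.mem_Ioo, Finset.mem_insert]
  omega

/-- first algebraic identity -/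
theorem alg1 (c : ℝ≥0∞) (F I : ℕ → ℝ≥0∞) (h : ∀ i, F i + c * I i = 1) :
    ∀ n, 1 ≤ n → ∏ i ∈ Finset.Ioo 0 n, F i +
      ∑ s ∈ Finset.Ioo 0 n, c * I s * ∏ i ∈ Finset.Ioo s n, F i = 1 := by
  intro n hn
  induction n, hn using Nat.le_induction with
  | base =>
    have e : Finset.Ioo 0 1 = (∅ : Finset ℕ) := rfl
    rw [e]
    simp
  | succ n hn ih =>
    have e1 : Finset.Ioo 0 (n + 1) = insert n (Finset.Ioo 0 n) := Ioo_succ' 0 n (by omega)
    rw [e1, Finset.prod_insert (by simp), Finset.sum_insert (by simp)]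
    have e2 : ∑ s ∈ Finset.Ioo 0 n, c * I s * ∏ i ∈ Finset.Ioo s (n + 1), F i =
        F n * ∑ s ∈ Finset.Ioo 0 n, c * I s * ∏ i ∈ Finset.Ioo s n, F i := by
      rw [Finset.mul_sum]
      apply Finset.sum_congr rfl
      intro s hs
      rw [Finset.mem_Ioo] at hs
      rw [Ioo_succ' s n hs.2, Finset.prod_insert (by simp)]
      ring
    have e3 : Finset.Ioo n (n + 1) = ∅ := by
      ext i
      simp only [Finset.mem_Ioo, Finset.notMem_empty, iff_false]
      omega
    rw [e2, e3, Finset.prod_empty, mul_one]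
    calc F n * ∏ i ∈ Finset.Ioo 0 n, F i +
        (c * I n + F n * ∑ s ∈ Finset.Ioo 0 n, c * I s * ∏ i ∈ Finset.Ioo s n, F i)
        = F n * (∏ i ∈ Finset.Ioo 0 n, F i +
          ∑ s ∈ Finset.Ioo 0 n, c * I s * ∏ i ∈ Finset.Ioo s n, F i) + c * I n := by ring
      _ = 1 := by rw [ih, mul_one, h]

theorem arcs_sum (n : ℕ) (f : ℕ × ℕ → ℝ≥0∞) :
    ∑ p ∈ arcs n, f p = ∑ t ∈ Finset.range (n + 1), ∑ s ∈ Finset.range t, f (s, t) := by
  unfold arcs
  rw [Finset.sum_filter, Finset.sum_product_right]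
  apply Finset.sum_congr rfl
  intro t ht
  rw [Finset.mem_range] at ht
  simp only
  rw [← Finset.sum_filter]
  apply Finset.sum_congr _ (fun _ _ => rfl)
  ext s
  simp only [Finset.mem_filter, Finset.mem_range]
  omega

/-- second algebraic identity -/
theorem alg2 (c : ℝ≥0∞) (F I : ℕ → ℝ≥0∞) (h : ∀ i, F i + c * I i = 1) (m : ℕ) :
    (1 - ∏ i ∈ Finset.Icc 1 (m + 1), F i) + ∑ p ∈ arcs m,
      c ^ 2 * I (1 + p.1) * I (1 + p.2) * ∏ i ∈ Finset.Ioo (1 + p.1) (1 + p.2), F i =
    c * ∑ i ∈ Finset.Icc 1 (m + 1), I i := by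
  have hF1 : ∀ i, F i ≤ 1 := fun i => by
    rw [← h i]
    exact le_self_add
  have hP1 : ∀ s : Finset ℕ, ∏ i ∈ s, F i ≤ 1 := fun s => Finset.prod_le_one' fun i _ => hF1 i
  have hPf : ∀ s : Finset ℕ, ∏ i ∈ s, F i ≠ ∞ := fun s => ne_top_of_le_ne_top ENNReal.one_ne_top (hP1 s)
  rw [arcs_sum]
  induction m with
  | zero =>
    simp only [zero_add, Finset.Icc_self, Finset.prod_singleton, Finset.sum_singleton,
      Finset.range_one, Finset.range_zero, Finset.sum_empty, add_zero]
    have hf : F 1 ≠ ∞ := ne_top_of_le_ne_top ENNReal.one_ne_top (hF1 1)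
    exact ENNReal.sub_eq_of_eq_add hf (by rw [add_comm]; exact (h 1).symm)
  | succ m ih =>
    rw [Finset.sum_range_succ, ← add_assoc]
    have e1 : Finset.Icc 1 (m + 1 + 1) = insert (m + 2) (Finset.Icc 1 (m + 1)) := by
      ext i
      simp only [Finset.mem_Icc, Finset.mem_insert]
      omega
    have e2 : Finset.Icc 1 (m + 1) = Finset.Ioo 0 (m + 2) := by
      ext i
      simp only [Finset.mem_Icc, Finset.mem_Ioo]
      omega
    have hni : m + 2 ∉ Finset.Icc 1 (m + 1) := by simp
    rw [e1, Finset.prod_insert hni, Finset.sum_insert hni]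
    -- the complement of the product
    have e3 : 1 - F (m + 2) * ∏ i ∈ Finset.Icc 1 (m + 1), F i =
        (1 - ∏ i ∈ Finset.Icc 1 (m + 1), F i) +
          c * I (m + 2) * ∏ i ∈ Finset.Icc 1 (m + 1), F i := by
      apply ENNReal.sub_eq_of_eq_add
      · exact ENNReal.mul_ne_top (ne_top_of_le_ne_top ENNReal.one_ne_top (hF1 _)) (hPf _)
      · have h5 : (1 - ∏ i ∈ Finset.Icc 1 (m + 1), F i) + ∏ i ∈ Finset.Icc 1 (m + 1), F i = 1 :=
          tsub_add_cancel_of_le (hP1 _)
        calc (1 : ℝ≥0∞) = (1 - ∏ i ∈ Finset.Icc 1 (m + 1), F i) +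
              1 * ∏ i ∈ Finset.Icc 1 (m + 1), F i := by rw [one_mul, h5]
          _ = (1 - ∏ i ∈ Finset.Icc 1 (m + 1), F i) +
              (F (m + 2) + c * I (m + 2)) * ∏ i ∈ Finset.Icc 1 (m + 1), F i := by rw [h]
          _ = _ := by ring
    -- the new arcs
    have e4 : ∑ s ∈ Finset.range (m + 1), c ^ 2 * I (1 + (s, m + 1).1) * I (1 + (s, m + 1).2) *
          ∏ i ∈ Finset.Ioo (1 + (s, m + 1).1) (1 + (s, m + 1).2), F i =
        c * I (m + 2) * ∑ s ∈ Finset.Ioo 0 (m + 2), c * I s * ∏ i ∈ Finset.Ioo s (m + 2), F i := by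
      have e5 : Finset.Ioo 0 (m + 2) = (Finset.range (m + 1)).image (fun s => 1 + s) := by
        ext i
        simp only [Finset.mem_Ioo, Finset.mem_image, Finset.mem_range]
        constructor
        · intro hi
          exact ⟨i - 1, by omega, by omega⟩
        · rintro ⟨a, ha, rfl⟩
          omega
      rw [e5, Finset.sum_image (fun a _ b _ hab => by simpa using hab), Finset.mul_sum]
      apply Finset.sum_congr rfl
      intro s _
      have e6 : 1 + (m + 1) = m + 2 := by omega
      simp only [e6]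
      ring
    have e7 := alg1 c F I h (m + 2) (by omega)
    rw [e3, e4, e2]
    rw [e2] at ih
    calc (1 - ∏ i ∈ Finset.Ioo 0 (m + 2), F i) + c * I (m + 2) * ∏ i ∈ Finset.Ioo 0 (m + 2), F i +
          ∑ x ∈ Finset.range (m + 1), ∑ s ∈ Finset.range x,
            c ^ 2 * I (1 + (s, x).1) * I (1 + (s, x).2) *
              ∏ i ∈ Finset.Ioo (1 + (s, x).1) (1 + (s, x).2), F i +
          c * I (m + 2) * ∑ s ∈ Finset.Ioo 0 (m + 2), c * I s * ∏ i ∈ Finset.Ioo s (m + 2), F i
        = ((1 - ∏ i ∈ Finset.Ioo 0 (m + 2), F i) +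
          ∑ x ∈ Finset.range (m + 1), ∑ s ∈ Finset.range x,
            c ^ 2 * I (1 + (s, x).1) * I (1 + (s, x).2) *
              ∏ i ∈ Finset.Ioo (1 + (s, x).1) (1 + (s, x).2), F i) +
          c * I (m + 2) * (∏ i ∈ Finset.Ioo 0 (m + 2), F i +
            ∑ s ∈ Finset.Ioo 0 (m + 2), c * I s * ∏ i ∈ Finset.Ioo s (m + 2), F i) := by ring
      _ = c * ∑ i ∈ Finset.Ioo 0 (m + 2), I i + c * I (m + 2) := by rw [ih, e7, mul_one]
      _ = _ := by ring

theorem pos_congr {d : ℕ} {a b : ℕ → Fin d → ℤ} {n k : ℕ} (h : ∀ i < n, a i = b i)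
    (hk : k ≤ n) : pos a k = pos b k := by
  unfold pos
  apply Finset.sum_congr rfl
  intro i hi
  rw [Finset.mem_range] at hi
  exact h i (by omega)

theorem pos_add {d : ℕ} (a : ℕ → Fin d → ℤ) (s j : ℕ) :
    pos a (s + j) = pos a s + pos (sh s a) j := by
  unfold pos sh
  rw [Finset.sum_range_add]

theorem main (h1 : MEAS_T) (h2 : MARK_T) : C1_T := by
  intro d r _ e he m x
  have : IsProbabilityMeasure (iid r) := by unfold iid; infer_instance
  set c : ℝ≥0∞ := 1 - e with hc
  have hec : e + c = 1 := add_tsub_cancel_of_le he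
  let F : (Fin d → ℤ) → ℕ → (ℕ → Fin d → ℤ) → ℝ≥0∞ := fun y i w =>
    if y + pos w i = x i then e else 1
  let I : (Fin d → ℤ) → ℕ → (ℕ → Fin d → ℤ) → ℝ≥0∞ := fun y i w =>
    if y + pos w i = x i then 1 else 0
  have hFI : ∀ y w i, F y i w + c * I y i w = 1 := by
    intro y w i
    simp only [F, I]
    split_ifs
    · rw [mul_one, hec]
    · rw [mul_zero, add_zero]
  have hF1 : ∀ y w i, F y i w ≤ 1 := fun y w i => by
    rw [← hFI y w i]
    exact le_self_add
  have mF : ∀ y i, Measurable (F y i) := by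
    intro y i
    apply h1 d i
    intro a b hab
    simp only [F]
    rw [pos_congr hab le_rfl]
  have mI : ∀ y i, Measurable (I y i) := by
    intro y i
    apply h1 d i
    intro a b hab
    simp only [I]
    rw [pos_congr hab le_rfl]
  have mP : ∀ y (s : Finset ℕ), Measurable (fun w => ∏ i ∈ s, F y i w) := by
    intro y s
    exact Finset.measurable_prod s fun i _ => mF y i
  -- (a)
  have ha : Cn e r (m + 1) x =
      ∑' y, ∫⁻ w, (1 - ∏ i ∈ Finset.Icc 1 (m + 1), F y i w) ∂(iid r) := by
    unfold Cn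
    apply tsum_congr
    intro y
    have hle : ∀ w, ∏ i ∈ Finset.Icc 1 (m + 1), F y i w ≤ 1 := fun w =>
      Finset.prod_le_one' fun i _ => hF1 y w i
    have hfin : ∫⁻ w, ∏ i ∈ Finset.Icc 1 (m + 1), F y i w ∂(iid r) ≠ ∞ := by
      have h3 : ∫⁻ w, ∏ i ∈ Finset.Icc 1 (m + 1), F y i w ∂(iid r) ≤ ∫⁻ _w, 1 ∂(iid r) :=
        lintegral_mono hle
      rw [lintegral_one, measure_univ] at h3
      exact ne_top_of_le_ne_top ENNReal.one_ne_top h3
    rw [lintegral_sub (mP y _) hfin (ae_of_all _ hle), lintegral_one, measure_univ]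
  -- (b)
  have hb : ∀ p ∈ arcs m, qf e r (p.2 - p.1) (fun i => x (1 + p.1 + i) - x (1 + p.1)) =
      ∑' y, ∫⁻ w, c ^ 2 * I y (1 + p.1) w * I y (1 + p.2) w *
        ∏ i ∈ Finset.Ioo (1 + p.1) (1 + p.2), F y i w ∂(iid r) := by
    intro p hp
    obtain ⟨s, t⟩ := p
    have hst : s < t := by
      unfold arcs at hp
      exact (Finset.mem_filter.1 hp).2
    simp only
    rw [← lintegral_tsum]
    swap
    · intro y
      exact (((measurable_const.mul (mI y _)).mul (mI y _)).mul (mP y _)).aemeasurable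
    -- the function of the shifted walk
    let G : (ℕ → Fin d → ℤ) → ℝ≥0∞ := fun w =>
      (if pos w (t - s) = x (1 + s + (t - s)) - x (1 + s) then 1 else 0) *
        ∏ i ∈ Finset.Ioo 0 (t - s), (if pos w i = x (1 + s + i) - x (1 + s) then e else 1)
    have mG : Measurable G := by
      apply h1 d (t - s)
      intro a b hab
      simp only [G]
      rw [pos_congr hab le_rfl]
      congr 1
      apply Finset.prod_congr rfl
      intro i hi
      rw [Finset.mem_Ioo] at hi
      rw [pos_congr hab hi.2.le]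
    have hpt : ∀ w, ∑' y, c ^ 2 * I y (1 + s) w * I y (1 + t) w *
        ∏ i ∈ Finset.Ioo (1 + s) (1 + t), F y i w = c ^ 2 * G (sh (1 + s) w) := by
      intro w
      rw [tsum_eq_single (x (1 + s) - pos w (1 + s))]
      · have e1 : I (x (1 + s) - pos w (1 + s)) (1 + s) w = 1 := by
          simp only [I]
          rw [if_pos (by abel)]
        have hkey : ∀ j, (x (1 + s) - pos w (1 + s) + pos w (1 + s + j) = x (1 + s + j)) ↔
            (pos (sh (1 + s) w) j = x (1 + s + j) - x (1 + s)) := by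
          intro j
          rw [pos_add w (1 + s) j]
          constructor
          · intro h3
            rw [← h3]
            abel
          · intro h3
            rw [h3]
            abel
        have e2 : I (x (1 + s) - pos w (1 + s)) (1 + t) w =
            (if pos (sh (1 + s) w) (t - s) = x (1 + s + (t - s)) - x (1 + s) then 1 else 0) := by
          have h4 : 1 + t = 1 + s + (t - s) := by omega
          simp only [I]
          rw [h4]
          simp only [hkey]
        have e3 : ∏ i ∈ Finset.Ioo (1 + s) (1 + t), F (x (1 + s) - pos w (1 + s)) i w =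
            ∏ i ∈ Finset.Ioo 0 (t - s),
              (if pos (sh (1 + s) w) i = x (1 + s + i) - x (1 + s) then e else 1) := by
          have e5 : Finset.Ioo (1 + s) (1 + t) = (Finset.Ioo 0 (t - s)).image
              (fun i => 1 + s + i) := by
            ext i
            simp only [Finset.mem_Ioo, Finset.mem_image]
            constructor
            · intro hi
              exact ⟨i - (1 + s), by omega, by omega⟩
            · rintro ⟨a, ha, rfl⟩
              omega
          rw [e5, Finset.prod_image (fun a _ b _ hab => by simpa using hab)]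
          apply Finset.prod_congr rfl
          intro i _
          simp only [F, hkey]
        rw [e1, e2, e3, mul_one, mul_assoc]
      · intro y hy
        have e1 : I y (1 + s) w = 0 := by
          simp only [I]
          rw [if_neg]
          intro h3
          apply hy
          rw [← h3]
          abel
        rw [e1, mul_zero, zero_mul, zero_mul]
    simp only [hpt]
    rw [lintegral_const_mul' _ _ (ENNReal.pow_ne_top (by
      rw [hc]
      exact ne_top_of_le_ne_top ENNReal.one_ne_top tsub_le_self))]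
    have h3 := h2 d r (1 + s) (fun _ b => G b) (by
      exact mG.comp measurable_snd) (fun _ _ _ _ => rfl)
    rw [h3, lintegral_const, measure_univ, mul_one]
    rfl
  -- (c)
  have hcc : ∀ i, ∑' y, ∫⁻ w, I y i w ∂(iid r) = 1 := by
    intro i
    rw [← lintegral_tsum (fun y => (mI y i).aemeasurable)]
    have hpt : ∀ w, ∑' y, I y i w = 1 := by
      intro w
      rw [tsum_eq_single (x i - pos w i)]
      · simp only [I]
        rw [if_pos (by abel)]
      · intro y hy
        simp only [I]
        rw [if_neg]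
        intro h3
        apply hy
        rw [← h3]
        abel
    simp only [hpt]
    rw [lintegral_one, measure_univ]
  rw [ha, Finset.sum_congr rfl hb, ← Summable.tsum_finsetSum (fun _ _ => ENNReal.summable),
    ← ENNReal.tsum_add]
  have hy : ∀ y, ∫⁻ w, (1 - ∏ i ∈ Finset.Icc 1 (m + 1), F y i w) ∂(iid r) +
      ∑ p ∈ arcs m, ∫⁻ w, c ^ 2 * I y (1 + p.1) w * I y (1 + p.2) w *
        ∏ i ∈ Finset.Ioo (1 + p.1) (1 + p.2), F y i w ∂(iid r) =
      c * ∑ i ∈ Finset.Icc 1 (m + 1), ∫⁻ w, I y i w ∂(iid r) := by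
    intro y
    have hmeas : ∀ p ∈ arcs m, Measurable (fun w => c ^ 2 * I y (1 + p.1) w * I y (1 + p.2) w *
        ∏ i ∈ Finset.Ioo (1 + p.1) (1 + p.2), F y i w) := fun p _ =>
      (((measurable_const.mul (mI y _)).mul (mI y _)).mul (mP y _))
    have hm2 : Measurable (fun w => (1 : ℝ≥0∞) - ∏ i ∈ Finset.Icc 1 (m + 1), F y i w) :=
      measurable_const.sub (mP y _)
    rw [← lintegral_finsetSum _ hmeas, ← lintegral_add_left hm2,
      ← lintegral_finsetSum _ (fun i _ => mI y i),
      ← lintegral_const_mul _ (Finset.measurable_sum _ fun i _ => mI y i)]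
    apply lintegral_congr
    intro w
    exact alg2 c (fun i => F y i w) (fun i => I y i w) (hFI y w) m
  rw [tsum_congr hy, ENNReal.tsum_mul_left, Summable.tsum_finsetSum (fun _ _ => ENNReal.summable)]
  simp only [hcc]
  rw [Finset.sum_const, Nat.card_Icc]
  simp only [nsmul_eq_mul, mul_one, Nat.add_sub_cancel]
  push_cast
  ring

end Pool.Agent.W15.QTC1
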