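import Pool.Agent.W988.RA.Defs

/-! Project RA (helper988, MP_6acab6_an): the main duality estimate. -/

set_option autoImplicit false

namespace Pool.Agent.W15.RA_TAIL

open Pool.Agent.W988.RA

variable {n : ℕ}

theorem av_mono {f g : (Fin n → Bool) → ℝ} (h : ∀ ε, f ε ≤ g ε) : av f ≤ av g := by
  unfold av
  exact div_le_div_of_nonneg_right (Finset.sum_le_sum fun ε _ => h ε) (by positivity)

theorem av_nonneg {f : (Fin n → Bool) → ℝ} (h : ∀ ε, 0 ≤ f ε) : 0 ≤ av f := by
  unfold av
  exact div_nonneg (Finset.sum_nonneg fun ε _ => h ε) (by positivity)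

theorem av_add (f g : (Fin n → Bool) → ℝ) : av (fun ε => f ε + g ε) = av f + av g := by
  unfold av
  rw [Finset.sum_add_distrib, add_div]

theorem av_const_mul (c : ℝ) (f : (Fin n → Bool) → ℝ) : av (fun ε => c * f ε) = c * av f := by
  unfold av
  rw [← Finset.mul_sum, mul_div_assoc]

theorem av_sum {m : ℕ} (f : Fin m → (Fin n → Bool) → ℝ) :
    av (fun ε => ∑ i, f i ε) = ∑ i, av (f i) := by
  unfold av
  rw [Finset.sum_comm, Finset.sum_div]

theorem av_cs (f g : (Fin n → Bool) → ℝ) :
    (av fun ε => f ε * g ε) ^ 2 ≤ av (fun ε => f ε ^ 2) * av (fun ε => g ε ^ 2) := by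
  unfold av
  rw [div_pow, div_mul_div_comm, ← sq]
  exact div_le_div_of_nonneg_right (Finset.sum_mul_sq_le_sq_mul_sq _ _ _) (by positivity)

theorem result (h4 : S_M4) (hK : S_KH) (hR : S_RZ) : S_TAIL := by
  intro n m L H hn hm hL hLn hH hfr A hA
  have hn' : (0 : ℝ) < n := by exact_mod_cast hn
  have hsq : 0 < Real.sqrt n := Real.sqrt_pos.2 hn'
  have hLs : L / Real.sqrt n ≤ 1 := by
    rw [div_le_one hsq]
    exact Real.le_sqrt_of_sq_le hLn
  have hsgabs : ∀ (ε : Fin n → Bool) (k : Fin n), |sg ε k| = 1 := by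
    intro ε k
    unfold sg
    split_ifs <;> simp
  set R : Fin m → (Fin n → Bool) → ℝ := fun i ε => ∏ k, (1 + H (k, i) * sg ε k) with hRdef
  set X : Fin m → (Fin n → Bool) → ℝ := fun i ε => dt ε fun k => A (k, i) with hXdef
  set b : (Fin n → Bool) → ℝ := fun ε => if 2 * (m : ℝ) < ZZ H ε then (1 : ℝ) else 0 with hbdef
  have hR0 : ∀ i ε, 0 ≤ R i ε := by
    intro i ε
    apply Finset.prod_nonneg
    intro k _
    have h1 : |H (k, i) * sg ε k| ≤ 1 := by
      rw [abs_mul, hsgabs, mul_one]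
      exact (hH _).trans hLs
    linarith [neg_abs_le (H (k, i) * sg ε k)]
  have hb01 : ∀ ε, b ε = 0 ∨ b ε = 1 := by
    intro ε
    simp only [hbdef]
    split_ifs
    · exact Or.inr rfl
    · exact Or.inl rfl
  have hb0 : ∀ ε, 0 ≤ b ε := by
    intro ε
    rcases hb01 ε with h | h <;> rw [h] <;> norm_num
  have hbsq : ∀ ε, b ε ^ 2 = b ε := by
    intro ε
    rcases hb01 ε with h | h <;> rw [h] <;> norm_num
  have hXle : ∀ i ε, |X i ε| ≤ ⨆ i : Fin m, |X i ε| := by
    intro i ε
    exact le_ciSup (f := fun i : Fin m => |X i ε|) (Set.finite_range _).bddAbove i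
  have hMx0 : ∀ ε, 0 ≤ ⨆ i : Fin m, |X i ε| := by
    intro ε
    exact Real.iSup_nonneg fun i => abs_nonneg _
  have hnrm : av (fun ε => ⨆ i : Fin m, |X i ε|) ≤ 1 := hA
  -- the sum
  have hsum : ∑ p, H p * A p = ∑ i, av (fun ε => R i ε * X i ε) := by
    rw [Fintype.sum_prod_type_right]
    apply Finset.sum_congr rfl
    intro i _
    exact ((hR n (fun k => H (k, i)) (fun k => A (k, i))).1).symm
  -- split
  have hsplit : ∀ i, av (fun ε => R i ε * X i ε) ≤
      av (fun ε => (1 - b ε) * (R i ε * |X i ε|)) + av (fun ε => b ε * (R i ε * |X i ε|)) := by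
    intro i
    rw [← av_add]
    apply av_mono
    intro ε
    have h1 : R i ε * X i ε ≤ R i ε * |X i ε| :=
      mul_le_mul_of_nonneg_left (le_abs_self _) (hR0 i ε)
    linarith
  -- off B
  have hoff : ∑ i, av (fun ε => (1 - b ε) * (R i ε * |X i ε|)) ≤ 2 * m := by
    rw [← av_sum]
    have h1 : av (fun ε => ∑ i, (1 - b ε) * (R i ε * |X i ε|)) ≤
        av (fun ε => 2 * (m : ℝ) * ⨆ i : Fin m, |X i ε|) := by
      apply av_mono
      intro ε
      rw [← Finset.mul_sum]
      have h2 : ∑ i, R i ε * |X i ε| ≤ ZZ H ε * ⨆ i : Fin m, |X i ε| := by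
        unfold ZZ
        rw [Finset.sum_mul]
        apply Finset.sum_le_sum
        intro i _
        exact mul_le_mul_of_nonneg_left (hXle i ε) (hR0 i ε)
      by_cases hc : 2 * (m : ℝ) < ZZ H ε
      · have hb1 : b ε = 1 := if_pos hc
        rw [hb1, sub_self, zero_mul]
        exact mul_nonneg (by positivity) (hMx0 ε)
      · have hb1 : b ε = 0 := if_neg hc
        rw [hb1, sub_zero, one_mul]
        refine h2.trans ?_
        exact mul_le_mul_of_nonneg_right (not_lt.1 hc) (hMx0 ε)
    refine h1.trans ?_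
    rw [av_const_mul]
    have : (0 : ℝ) ≤ 2 * (m : ℝ) := by positivity
    nlinarith
  -- on B
  have hon : ∀ i, av (fun ε => b ε * (R i ε * |X i ε|)) ≤ 1 := by
    intro i
    set t := av (fun ε => b ε * (R i ε * |X i ε|)) with ht
    set s := av (fun ε => b ε * X i ε ^ 2) with hs
    have ht0 : 0 ≤ t := av_nonneg fun ε => mul_nonneg (hb0 ε) (mul_nonneg (hR0 i ε) (abs_nonneg _))
    have hs0 : 0 ≤ s := av_nonneg fun ε => mul_nonneg (hb0 ε) (sq_nonneg _)
    have hE : av (fun ε => R i ε ^ 2) ≤ Real.exp (L ^ 2) := by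
      have h1 := (hR n (fun k => H (k, i)) (fun k => A (k, i))).2
      have h2 : av (fun ε => R i ε ^ 2) = ∏ k, (1 + H (k, i) ^ 2) := h1
      rw [h2]
      have h3 : ∏ k : Fin n, (1 + H (k, i) ^ 2) ≤ ∏ _k : Fin n, Real.exp (L ^ 2 / n) := by
        apply Finset.prod_le_prod
        · intro k _
          positivity
        · intro k _
          have h5 : H (k, i) ^ 2 ≤ L ^ 2 / n := by
            have h6 := hH (k, i)
            have h7 : H (k, i) ^ 2 ≤ (L / Real.sqrt n) ^ 2 := by
              rw [← sq_abs]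
              exact pow_le_pow_left₀ (abs_nonneg _) h6 2
            rwa [div_pow, Real.sq_sqrt hn'.le] at h7
          have h8 := Real.add_one_le_exp (L ^ 2 / n)
          linarith
      refine h3.trans ?_
      rw [Finset.prod_const, Finset.card_univ, Fintype.card_fin, ← Real.exp_nat_mul]
      apply le_of_eq
      congr 1
      field_simp
    have hX4 : av (fun ε => X i ε ^ 4) ≤ 27 := by
      have h1 := h4 n (fun k => A (k, i))
      have h2 := hK n (fun k => A (k, i))
      have h3 : av (fun ε => |X i ε|) ≤ 1 := (av_mono fun ε => hXle i ε).trans hnrm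
      have h30 : 0 ≤ av (fun ε => |X i ε|) := av_nonneg fun ε => abs_nonneg _
      have h5 : ∑ k, A (k, i) ^ 2 ≤ 3 := by
        refine h2.trans ?_
        have : (av fun ε => |dt ε fun k => A (k, i)|) ^ 2 ≤ 1 := pow_le_one₀ h30 h3
        linarith
      have h50 : 0 ≤ ∑ k, A (k, i) ^ 2 := Finset.sum_nonneg fun k _ => sq_nonneg _
      have h6 : (∑ k, A (k, i) ^ 2) ^ 2 ≤ 3 ^ 2 := pow_le_pow_left₀ h50 h5 2
      refine h1.trans ?_
      linarith
    have hX40 : 0 ≤ av (fun ε => X i ε ^ 4) := av_nonneg fun ε => by positivity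
    have hfr0 : 0 ≤ frac H := av_nonneg fun ε => hb0 ε
    have h1 : t ^ 2 ≤ Real.exp (L ^ 2) * s := by
      have h2 := av_cs (fun ε => R i ε) (fun ε => b ε * |X i ε|)
      have e1 : av (fun ε => R i ε * (b ε * |X i ε|)) = t := by
        rw [ht]
        congr 1
        funext ε
        ring
      have e2 : av (fun ε => (b ε * |X i ε|) ^ 2) = s := by
        rw [hs]
        congr 1
        funext ε
        rw [mul_pow, sq_abs, hbsq]
      rw [e1, e2] at h2
      exact h2.trans (mul_le_mul_of_nonneg_right hE hs0)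
    have h2 : s ^ 2 ≤ frac H * 27 := by
      have h3 := av_cs (fun ε => b ε) (fun ε => X i ε ^ 2)
      have e1 : av (fun ε => b ε ^ 2) = frac H := by
        unfold frac
        congr 1
        funext ε
        exact hbsq ε
      have e2 : av (fun ε => (X i ε ^ 2) ^ 2) = av (fun ε => X i ε ^ 4) := by
        congr 1
        funext ε
        ring
      rw [e1, e2] at h3
      exact h3.trans (mul_le_mul_of_nonneg_left hX4 hfr0)
    have h5 : (t ^ 2) ^ 2 ≤ (Real.exp (L ^ 2) * s) ^ 2 := pow_le_pow_left₀ (sq_nonneg _) h1 2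
    have h6 : (Real.exp (L ^ 2) * s) ^ 2 = Real.exp (2 * L ^ 2) * s ^ 2 := by
      rw [mul_pow, ← Real.exp_nat_mul]
      push_cast
      rfl
    have h7 : Real.exp (2 * L ^ 2) * s ^ 2 ≤ Real.exp (2 * L ^ 2) * (frac H * 27) :=
      mul_le_mul_of_nonneg_left h2 (Real.exp_pos _).le
    have h8 : t ^ 4 ≤ 1 := by
      have e : t ^ 4 = (t ^ 2) ^ 2 := by ring
      rw [e]
      linarith
    by_contra hcon
    push Not at hcon
    have : 1 < t ^ 4 := one_lt_pow₀ hcon (by norm_num)
    linarith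
  rw [hsum]
  have h1 : ∑ i, av (fun ε => R i ε * X i ε) ≤
      ∑ i, (av (fun ε => (1 - b ε) * (R i ε * |X i ε|)) +
        av (fun ε => b ε * (R i ε * |X i ε|))) := Finset.sum_le_sum fun i _ => hsplit i
  rw [Finset.sum_add_distrib] at h1
  have h2 : ∑ i : Fin m, av (fun ε => b ε * (R i ε * |X i ε|)) ≤ m := by
    have := Finset.sum_le_sum (s := Finset.univ) fun (i : Fin m) _ => hon i
    simpa using this
  linarith

end Pool.Agent.W15.RA_TAIL
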